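import Mathlib
import Pool.Agent.K7.H22.LW.Stm

/-!
# Job C of project LW (helper11): windows which meet a level too often
-/

set_option autoImplicit false

namespace Pool.Agent.K7.H11.LW

open Finset Pool.Agent.K7.H22.LW

/-- a product of numbers `≥ 1`, many of which are `≥ c` -/
theorem pow_le_prod {ι : Type} [DecidableEq ι] (s t : Finset ι) (f : ι → ℝ) (c : ℝ) (k : ℕ) (hc : 1 ≤ c) (hts : t ⊆ s)
    (h1 : ∀ j, 1 ≤ f j) (h2 : ∀ j ∈ t, c ≤ f j) (hk : k ≤ t.card) : c ^ k ≤ ∏ j ∈ s, f j := by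
  calc c ^ k ≤ c ^ t.card := pow_le_pow_right₀ hc hk
    _ = ∏ _j ∈ t, c := by rw [prod_const]
    _ ≤ ∏ j ∈ t, f j := prod_le_prod (fun _ _ => by linarith) h2
    _ ≤ ∏ j ∈ s, f j := by
      rw [← prod_sdiff hts]
      have h3 : 1 ≤ ∏ j ∈ s \ t, f j := by
        calc (1 : ℝ) = ∏ _j ∈ s \ t, (1 : ℝ) := by rw [prod_const_one]
          _ ≤ ∏ j ∈ s \ t, f j := prod_le_prod (fun _ _ => zero_le_one) (fun j _ => h1 j)
      have h4 : 0 ≤ ∏ j ∈ t, f j := prod_nonneg fun j hj => by linarith [h1 j]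
      nlinarith

theorem sum_eq {F b : ℕ → ℝ} (hF : ∀ i, F (i + 1) = F i + b i) (a s : ℕ) :
    S (fun i => b (a + i)) s = F (a + s) - F a := by
  unfold S
  induction s with
  | zero => simp
  | succ s ih =>
    rw [sum_range_succ, ih, ← add_assoc, hF]
    ring

theorem sq_of_fourth {a : ℝ} {n : ℕ} (h : a ^ 4 ≤ 2 ^ 62 * 4 ^ n) : a ^ 2 ≤ 2 ^ 31 * 2 ^ n := by
  have h1 : (2 : ℝ) ^ 62 * 4 ^ n = (2 ^ 31 * 2 ^ n) ^ 2 := by
    rw [mul_pow, ← pow_mul, ← pow_mul, show (4 : ℝ) = 2 ^ 2 by norm_num, ← pow_mul, mul_comm n 2]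
  rw [h1, show a ^ 4 = (a ^ 2) ^ 2 by ring] at h
  exact le_of_sq_le_sq h (by positivity)

/-- many neighbours -/
theorem pairs (N k : ℕ) (G : Finset ℕ) (hG : G ⊆ range N) (hk : k + N + 1 ≤ 2 * G.card) :
    k ≤ (G.filter fun j => j + 1 ∈ G).card := by
  classical
  have h1 : (G.filter fun j => j + 1 ∈ G).card + (G.filter fun j => ¬ j + 1 ∈ G).card = G.card :=
    card_filter_add_card_filter_not _
  have h2 : (G.filter fun j => ¬ j + 1 ∈ G).card ≤ (range (N + 1) \ G).card := by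
    refine card_le_card_of_injOn (fun j => j + 1) ?_ (fun a _ b _ h => by simpa using h)
    intro j hj
    simp only [coe_filter, Set.mem_ofPred_eq] at hj
    have h3 := mem_range.1 (hG hj.1)
    simp only [coe_sdiff, Set.mem_sdiff, mem_coe, mem_range]
    exact ⟨by omega, hj.2⟩
  have h3 : (range (N + 1) \ G).card = N + 1 - G.card := by
    rw [card_sdiff_of_subset (hG.trans (range_subset_range.2 (by omega))), card_range]
  have h4 : G.card ≤ N := by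
    have h5 := card_le_card hG
    rwa [card_range] at h5
  omega

theorem main_c (n m g : ℕ) (F b : ℕ → ℝ) (h : ℝ) (hF : ∀ i, F (i + 1) = F i + b i)
    (hg : (g : ℝ) = 2 ^ n * 2 ^ 36)
    (hA1 : ∀ b, 1 ≤ f₁ g b) (hA2 : ∀ b, S b g ^ 2 ≤ g / 6 → 3 ≤ f₁ g b)
    (hB1 : ∀ b, 1 ≤ f₂ n b)
    (hB2 : ∀ (b : ℕ → ℝ) (s : ℕ), s ≤ 2 ^ n → 2 ^ 62 * 4 ^ n < S b s ^ 4 → 2 ^ 51 ≤ f₂ n b)
    (Hit Bad : Finset ℕ) (hH1 : Hit ⊆ range (100 * m))
    (hH2 : ∀ j ∈ Hit, ∃ s ≤ 2 ^ n, F (j * g + s) = h)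
    (hBs : Bad ⊆ range (100 * m))
    (hBad : ∀ j ∈ range (100 * m), j ∈ Bad ↔
      ∃ s ≤ 2 ^ n, 2 ^ 62 * 4 ^ n < S (fun i => b (j * g + i)) s ^ 4)
    (hcard : 98 * m < Hit.card) :
    (3 : ℝ) ^ (90 * m) ≤ ∏ j ∈ range (100 * m), f₁ g (fun i => b (j * g + i)) ∨
      (2 : ℝ) ^ (102 * m) ≤ ∏ j ∈ range (100 * m), f₂ n (fun i => b (j * g + i)) := by
  classical
  by_cases hbad : 2 * m ≤ Bad.card
  · right
    have h1 : ((2 : ℝ) ^ 51) ^ (2 * m) ≤ ∏ j ∈ range (100 * m), f₂ n (fun i => b (j * g + i)) := by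
      refine pow_le_prod _ Bad _ _ _ (one_le_pow₀ (by norm_num)) hBs
        (fun j => hB1 _) (fun j hj => ?_) hbad
      obtain ⟨s, hs, hlt⟩ := (hBad j (hBs hj)).1 hj
      exact hB2 _ s hs hlt
    rw [← pow_mul] at h1
    rw [show 102 * m = 51 * (2 * m) by ring]
    exact h1
  · left
    push Not at hbad
    have hGs : Hit \ Bad ⊆ range (100 * m) := sdiff_subset.trans hH1
    have hGc : 96 * m + 2 ≤ (Hit \ Bad).card := by
      have h1 := le_card_sdiff Bad Hit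
      omega
    have hgood : ∀ j ∈ Hit \ Bad, (h - F (j * g)) ^ 2 ≤ 2 ^ 31 * 2 ^ n := by
      intro j hj
      obtain ⟨h1, h2⟩ := mem_sdiff.1 hj
      obtain ⟨s, hs, h4⟩ := hH2 j h1
      have h5 : ¬ (2 ^ 62 * 4 ^ n < S (fun i => b (j * g + i)) s ^ 4) := fun h6 =>
        h2 ((hBad j (hH1 h1)).2 ⟨s, hs, h6⟩)
      rw [sum_eq hF, h4, not_lt] at h5
      exact sq_of_fourth h5
    generalize Hit \ Bad = Good at hGs hGc hgood
    have hpairs := pairs (100 * m) (90 * m) Good hGs (by omega)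
    refine pow_le_prod _ (Good.filter fun j => j + 1 ∈ Good) _ _ _ (by norm_num)
      ((filter_subset _ _).trans hGs) (fun j => hA1 _) (fun j hj => hA2 _ ?_) hpairs
    obtain ⟨h1, h2⟩ := mem_filter.1 hj
    have h3 := hgood j h1
    have h4 := hgood (j + 1) h2
    rw [sum_eq hF, show j * g + g = (j + 1) * g by ring, hg]
    have h5 : (F ((j + 1) * g) - F (j * g)) ^ 2 ≤
        2 * (h - F (j * g)) ^ 2 + 2 * (h - F ((j + 1) * g)) ^ 2 := by
      nlinarith [sq_nonneg ((h - F (j * g)) + (h - F ((j + 1) * g)))]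
    have h7 : (0 : ℝ) < 2 ^ n := by positivity
    generalize (2 : ℝ) ^ n = w at *
    have h8 : (2 : ℝ) ^ 36 = 32 * 2 ^ 31 := by norm_num
    have h9 : (0 : ℝ) < 2 ^ 31 := by norm_num
    rw [h8]
    generalize (2 : ℝ) ^ 31 = u at *
    have h10 : 0 < u * w := by positivity
    linarith

theorem stC (hA : StA) (hB : StB) : StC := by
  classical
  intro n m F b h hF hcard
  have hg4 : 4 ≤ 2 ^ (n + 36) := by
    calc 4 ≤ 2 ^ 2 := by norm_num
      _ ≤ 2 ^ (n + 36) := Nat.pow_le_pow_right (by norm_num) (by omega)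
  have hg : ((2 ^ (n + 36) : ℕ) : ℝ) = 2 ^ n * 2 ^ 36 := by
    push_cast
    rw [pow_add]
  generalize 2 ^ (n + 36) = g at hcard hg4 hg ⊢
  obtain ⟨-, -, hA1, hA2⟩ := hA g hg4
  obtain ⟨-, -, hB1, hB2⟩ := hB n
  exact main_c n m g F b h hF hg hA1 hA2 hB1 hB2 _
    ((range (100 * m)).filter fun j =>
      ∃ s ≤ 2 ^ n, 2 ^ 62 * 4 ^ n < S (fun i => b (j * g + i)) s ^ 4) (filter_subset _ _)
    (fun j hj => (mem_filter.1 hj).2) (filter_subset _ _)
    (fun j hj => ⟨fun h1 => (mem_filter.1 h1).2, fun h1 => mem_filter.2 ⟨hj, h1⟩⟩) hcard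

end Pool.Agent.K7.H11.LW
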